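import Pool.Agent.TH890.FN.Atr

open NumberField

open Pool.Agent.TH965.Stk
open Pool.Agent.TH890.FN

namespace Pool.Agent.Results.MP_c49e96_nt.OneAlmostTotallyRealField

/-- Let `A` be a family of elements of a commutative group attached to number fields and their
virtual Artin characters, multiplicative in the character and invariant under induction of linear
characters, with value `1` at the totally odd linear characters of totally real fields. Let `K` be
totally real.

(1) Let `E` be a set of infinite places of `K`, `ψ` a linear character of `K` which is even exactly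
at the places in `E`, and `s ^ 2` an element of `K` which is negative exactly at the places in `E`.
The restriction `φ` of `ψ` to `K(s)` is odd at all real places, and `A` has the same value at
`(K(s), φ)` as at `(K, ψ)`.

(2) Let `v` be an infinite place, `s ^ 2` in `K` negative exactly at `v`, and `n` a natural number.
`A` is `1` at all `(K, ψ)` with `ψ` of order `n` even exactly at `v` iff it is `1` at all
`(K(s), φ)` with `φ` of order `n`, odd at all real places, which extend to `K`.

(3) For all `E` and all `m ≥ 1` there is an `s` as in (1) such that `s ^ 2 - 1` is `m` times an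
algebraic integer of `K`. -/
theorem result {M : Type} [CommGroup M] (A : Family M)
    (odd : ∀ K : SubQ, IsNF K → IsTR K → ∀ ψ : LinChar K, ψ.HasSign (-1) → A.D K ψ.fn = 1)
    (K : SubQ) (hK : IsNF K) (hR : IsTR K) :
    (∀ (E : Set (InfinitePlace K.toIF)) (s : AlgebraicClosure ℚ), NegAt K E s →
      ∀ ψ : LinChar K, EvenAt ψ E → ∀ φ : LinChar (adj K s), IsLift ψ s φ →
        φ.HasSign (-1) ∧ A.D (adj K s) φ.fn = A.D K ψ.fn) ∧
    (∀ (v : InfinitePlace K.toIF) (s : AlgebraicClosure ℚ), NegAt K {v} s → ∀ n : ℕ,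
      (∀ ψ : LinChar K, EvenAt ψ {v} → orderOf ψ.hom = n → A.D K ψ.fn = 1) ↔
      (∀ φ : LinChar (adj K s), φ.HasSign (-1) → orderOf φ.hom = n →
        (∃ ψ : LinChar K, IsLift ψ s φ) → A.D (adj K s) φ.fn = 1)) ∧
    (∀ (E : Set (InfinitePlace K.toIF)) (m : ℕ), 0 < m → ∃ s : AlgebraicClosure ℚ,
      NegAt K E s ∧ ∃ b : K.toIF, IsIntegral ℤ b ∧
        s ^ 2 = 1 + (m : AlgebraicClosure ℚ) * (b : AlgebraicClosure ℚ)) := by
  refine ⟨fun E s h ψ hψ φ hφ => ⟨lift_odd h ψ hψ φ hφ, lift_eq A odd hK hR h ψ hψ φ hφ⟩,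
    fun v s h n => ⟨fun H φ hs hn hex => ?_, fun H ψ hψ hn => ?_⟩,
    fun E m hm => exists_neg hK hR E m hm⟩
  · obtain ⟨ψ, hψ, hev⟩ := exists_even hK hR h φ hs hex
    rw [lift_eq A odd hK hR h ψ hev φ hψ]
    exact H ψ hev (by rw [← lift_order hK hR h ψ hev φ hψ]; exact hn)
  · obtain ⟨φ, hφ⟩ := exists_lift s ψ
    rw [← lift_eq A odd hK hR h ψ hψ φ hφ]
    exact H φ (lift_odd h ψ hψ φ hφ) (by rw [lift_order hK hR h ψ hψ φ hφ]; exact hn) ⟨ψ, hφ⟩

end Pool.Agent.Results.MP_c49e96_nt.OneAlmostTotallyRealField
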